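import Pool.Agent.helper55.VDI.SpecB1
import Pool.Agent.helper34.VD.AFHB

set_option autoImplicit false

open scoped ContDiff Topology InnerProductSpace ComplexConjugate ENNReal
open MeasureTheory Filter Set

namespace Pool.Agent.VDI

open Pool.Agent.VD
open Pool.Agent.VQ (CH KZ PS perZ cmZ)
open Pool.Agent.RPQ (IsOp)
open Pool.Agent.VDA (STP FB FR FT nY OY OA)
open Pool.Agent.VDE (FDX)

noncomputable section

/-- counting: at most `#S` translates of `x` are in the ball -/
theorem UBL_count {Γ : Type} [Group Γ] {d : ℕ} [MulAction Γ (V d)] (r : ℝ) (S : Finset Γ) (hS : ∀ (γ : Γ) (x : V d), ‖x‖ ≤ r → ‖γ • x‖ ≤ r → γ ∈ S) (x : V d) (f : V d → ℝ≥0∞) (a : ℝ≥0∞)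
    (h0 : ∀ y, r < ‖y‖ → f y = 0) (ha : ∀ γ : Γ, f (γ • x) ≤ a) : ∑' γ : Γ, f (γ • x) ≤ S.card * a := by
  classical
  by_cases h : ∃ γ0 : Γ, ‖γ0 • x‖ ≤ r
  · obtain ⟨γ0, hγ0⟩ := h
    have hsub : ∀ γ ∉ S.image (fun s => s * γ0), f (γ • x) = 0 := by
      intro γ hγ
      apply h0
      by_contra hlt
      rw [not_lt] at hlt
      apply hγ
      rw [Finset.mem_image]
      refine ⟨γ * γ0⁻¹, hS _ (γ0 • x) hγ0 ?_, by group⟩
      rw [smul_smul]
      simpa using hlt
    rw [tsum_eq_sum hsub]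
    calc ∑ γ ∈ S.image (fun s => s * γ0), f (γ • x) ≤ ∑ γ ∈ S.image (fun s => s * γ0), a := Finset.sum_le_sum fun γ _ => ha γ
      _ = (S.image (fun s => s * γ0)).card * a := by rw [Finset.sum_const, nsmul_eq_mul]
      _ ≤ S.card * a := by
        have hcl : (((S.image (fun s => s * γ0)).card : ℕ) : ℝ≥0∞) ≤ (S.card : ℝ≥0∞) := Nat.cast_le.2 Finset.card_image_le
        gcongr
  · have h' : ∀ γ : Γ, f (γ • x) = 0 := fun γ => h0 _ (by
      by_contra hlt
      rw [not_lt] at hlt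
      exact h ⟨γ, hlt⟩)
    simp [h']

theorem UBL_lint (h1 : AMVI_stmt) {Γ : Type} [Group Γ] {d : ℕ} [MulAction Γ (V d)] (K : Set (V d)) (k : ℝ) (B : ℕ → ℕ → ℝ) (r : ℝ) (S : Finset Γ)
    (hS : ∀ (γ : Γ) (x : V d), ‖x‖ ≤ r → ‖γ • x‖ ≤ r → γ ∈ S) (hK : FdK Γ K) (G : V d → V d →L[ℝ] V d) (F : Set (V d)) (u : V d → ℂ) (hG : Cls Γ K k B G) (hF : FD Γ F) (hu : FH (⊤ : Subgroup Γ) F u) :
    ∫⁻ z in Metric.closedBall (0 : V d) r, ‖u z‖ₑ ^ 2 ∂mv G ≤ S.card * ∫⁻ z in F, ‖u z‖ₑ ^ 2 ∂mv G := by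
  obtain ⟨hct, -, -, -, -, hmp, -, -, -⟩ := h1 d Γ K k B G hK hG
  have : Countable Γ := hct
  have : MeasurableConstSMul Γ (V d) := ⟨fun γ => (hK.smooth γ).continuous.measurable⟩
  have : SMulInvariantMeasure Γ (V d) (mv G) := ⟨fun γ s hs => (hmp γ).measure_preimage hs.nullMeasurableSet⟩
  have hfd : IsFundamentalDomain Γ F (mv G) := IsFundamentalDomain.mk' hF.meas.nullMeasurableSet hF.uniq
  have hum : Measurable fun z => ‖u z‖ₑ ^ 2 := (hu.cont.measurable.enorm).pow_const 2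
  have hfm : Measurable ((Metric.closedBall (0 : V d) r).indicator (fun z => ‖u z‖ₑ ^ 2)) := hum.indicator measurableSet_closedBall
  have hm : ∀ γ : Γ, AEMeasurable (fun x : V d => (Metric.closedBall (0 : V d) r).indicator (fun z => ‖u z‖ₑ ^ 2) (γ • x)) ((mv G).restrict F) :=
    fun γ => (hfm.comp (hK.smooth γ).continuous.measurable).aemeasurable
  rw [← lintegral_indicator measurableSet_closedBall, hfd.lintegral_eq_tsum'', ← lintegral_tsum hm, ← lintegral_const_mul _ hum]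
  apply lintegral_mono
  intro x
  refine UBL_count r S hS x _ _ (fun y hy => ?_) (fun γ => ?_)
  · rw [indicator_of_notMem]
    simpa using hy
  · refine (indicator_le_self _ _ _).trans ?_
    simp only []
    rw [hu.inv γ (Subgroup.mem_top γ) x]

theorem UBL_proof (h1 : AMVI_stmt) (h2 : AHLD_stmt) (h3 : ASGF_stmt) : UBL_stmt := by
  intro d Γ _ _ K k B r hK
  classical
  obtain ⟨C0, hC0, h2'⟩ := h2 d Γ K k B r 0
  have hfin := (h3 d Γ K hK r 0).1
  have hS : ∀ (γ : Γ) (x : V d), ‖x‖ ≤ r → ‖γ • x‖ ≤ r → γ ∈ hfin.toFinset := by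
    intro γ x hx hγ
    rw [Set.Finite.mem_toFinset]
    exact ⟨x, hx, hγ⟩
  set N : ℕ := hfin.toFinset.card with hN
  set C1 : ℝ := max 1 (N * C0) with hC1
  have hC11 : 1 ≤ C1 := le_max_left _ _
  set v' : ℝ := volume.real (Metric.closedBall (0 : V d) r) + 1 with hv'
  have hv1 : 1 ≤ v' := by
    have := measureReal_nonneg (μ := (volume : Measure (V d))) (s := Metric.closedBall (0 : V d) r)
    linarith
  refine ⟨v' * C1, by nlinarith, ?_⟩
  intro G F u hG hF hu
  obtain ⟨-, -, hdp, -, -, -, -, -, -⟩ := h1 d Γ K k B G hK hG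
  obtain ⟨-, -, -, -, hbd⟩ := h2' G hK hG
  obtain ⟨-, -, -, -, hnn0, hnn⟩ := (AFHB_proof h1 d Γ K k B G hK hG (⊤ : Subgroup Γ) F {1} (Or.inl ⟨rfl, hF, rfl⟩)).1 u hu
  have hlint := UBL_lint h1 K k B r hfin.toFinset hS hK G F u hG hF hu
  rw [hnn, ← hN] at hlint
  have hum : Measurable fun z => ‖u z‖ₑ ^ 2 := (hu.cont.measurable.enorm).pow_const 2
  have hdm : Measurable fun z => ENNReal.ofReal (dens G z) := by
    have := (h1 d Γ K k B G hK hG).2.1.continuous.measurable
    exact this.ennreal_ofReal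
  -- the Lebesgue integral on the ball
  have hL : ∫⁻ z in Metric.closedBall (0 : V d) r, ‖u z‖ₑ ^ 2 ≤ ENNReal.ofReal C0 * ∫⁻ z in Metric.closedBall (0 : V d) r, ‖u z‖ₑ ^ 2 ∂mv G := by
    rw [mv, setLIntegral_withDensity_eq_setLIntegral_mul _ hdm hum measurableSet_closedBall, ← lintegral_const_mul _ (hdm.mul hum)]
    apply setLIntegral_mono (measurable_const.mul (hdm.mul hum))
    intro z hz
    have hz' : ‖z‖ ≤ r := by simpa using hz
    have h4 := (hbd z hz').1
    have h5 : (1 : ℝ≥0∞) ≤ ENNReal.ofReal C0 * ENNReal.ofReal (dens G z) := by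
      rw [← ENNReal.ofReal_mul (by linarith), ENNReal.one_le_ofReal]
      calc (1 : ℝ) = C0 * C0⁻¹ := by rw [mul_inv_cancel₀ (by linarith)]
        _ ≤ C0 * dens G z := by
          apply mul_le_mul_of_nonneg_left h4
          linarith
    calc ‖u z‖ₑ ^ 2 = 1 * ‖u z‖ₑ ^ 2 := (one_mul _).symm
      _ ≤ (ENNReal.ofReal C0 * ENNReal.ofReal (dens G z)) * ‖u z‖ₑ ^ 2 := by gcongr
      _ = ENNReal.ofReal C0 * ((fun z => ENNReal.ofReal (dens G z)) * fun z => ‖u z‖ₑ ^ 2) z := by
        simp only [Pi.mul_apply]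
        ring
  have hL2 : ∫⁻ z in Metric.closedBall (0 : V d) r, ‖u z‖ₑ ^ 2 ≤ ENNReal.ofReal (C1 * nn G F u) := by
    calc ∫⁻ z in Metric.closedBall (0 : V d) r, ‖u z‖ₑ ^ 2 ≤ ENNReal.ofReal C0 * (N * ENNReal.ofReal (nn G F u)) := hL.trans (by gcongr)
      _ = ENNReal.ofReal (N * C0 * nn G F u) := by
        rw [← ENNReal.ofReal_natCast, ← ENNReal.ofReal_mul (by positivity), ← ENNReal.ofReal_mul (by linarith)]
        congr 1
        ring
      _ ≤ ENNReal.ofReal (C1 * nn G F u) := by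
        apply ENNReal.ofReal_le_ofReal
        apply mul_le_mul_of_nonneg_right (le_max_right _ _) hnn0
  have hcb : IsCompact (Metric.closedBall (0 : V d) r) := isCompact_closedBall _ _
  have hi2 : IntegrableOn (fun z => ‖u z‖ ^ 2) (Metric.closedBall (0 : V d) r) volume := (hu.cont.norm.pow 2).continuousOn.integrableOn_compact hcb
  have hi1 : IntegrableOn (fun z => ‖u z‖) (Metric.closedBall (0 : V d) r) volume := hu.cont.norm.continuousOn.integrableOn_compact hcb
  have hb : ∫ z in Metric.closedBall (0 : V d) r, ‖u z‖ ^ 2 ≤ C1 * nn G F u := by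
    rw [integral_eq_lintegral_of_nonneg_ae (Eventually.of_forall fun z => by positivity) hi2.1]
    apply ENNReal.toReal_le_of_le_ofReal (by positivity)
    refine le_trans (le_of_eq ?_) hL2
    apply lintegral_congr
    intro z
    rw [ENNReal.ofReal_pow (norm_nonneg _), ofReal_norm_eq_enorm]
  have hb0 : 0 ≤ ∫ z in Metric.closedBall (0 : V d) r, ‖u z‖ ^ 2 := integral_nonneg fun z => by positivity
  refine ⟨hb.trans ?_, ?_⟩
  · have : C1 * nn G F u ≤ v' * (C1 * nn G F u) := le_mul_of_one_le_left (by positivity) hv1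
    linarith
  · -- Cauchy-Schwarz
    set a : ℝ := ∫ z in Metric.closedBall (0 : V d) r, ‖u z‖ with ha
    set b : ℝ := ∫ z in Metric.closedBall (0 : V d) r, ‖u z‖ ^ 2 with hbdef
    have ha0 : 0 ≤ a := integral_nonneg fun z => norm_nonneg _
    have hvol : volume.real (Metric.closedBall (0 : V d) r) = v' - 1 := by rw [hv']; ring
    have hfinv : IsFiniteMeasure (volume.restrict (Metric.closedBall (0 : V d) r)) := ⟨by
      rw [Measure.restrict_apply_univ]
      exact hcb.measure_lt_top⟩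
    have hcs : 0 ≤ b - 2 * (a / v') * a + (a / v') ^ 2 * (v' - 1) := by
      have h6 : ∫ z in Metric.closedBall (0 : V d) r, (‖u z‖ - a / v') ^ 2 = b - 2 * (a / v') * a + (a / v') ^ 2 * (v' - 1) := by
        have h7 : ∀ z : V d, (‖u z‖ - a / v') ^ 2 = (‖u z‖ ^ 2 - 2 * (a / v') * ‖u z‖) + (a / v') ^ 2 := fun z => by ring
        simp only [h7]
        have h20 : Integrable (fun z => ‖u z‖ ^ 2 - 2 * (a / v') * ‖u z‖) (volume.restrict (Metric.closedBall (0 : V d) r)) := hi2.sub (hi1.const_mul _)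
        have h21 : Integrable (fun z => 2 * (a / v') * ‖u z‖) (volume.restrict (Metric.closedBall (0 : V d) r)) := hi1.const_mul _
        rw [integral_add h20 (integrable_const _), integral_sub hi2 h21, integral_const_mul, setIntegral_const, smul_eq_mul, hvol]
        ring
      rw [← h6]
      exact integral_nonneg fun z => sq_nonneg _
    have hab : a ^ 2 ≤ v' * b := by
      have hv0 : 0 < v' := by linarith
      have h8 : 2 * (a / v') * a = 2 * a ^ 2 / v' := by field_simp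
      have h9 : (a / v') ^ 2 * (v' - 1) ≤ a ^ 2 / v' := by
        have : (a / v') ^ 2 * (v' - 1) = a ^ 2 / v' - (a / v') ^ 2 := by field_simp
        rw [this]
        have := sq_nonneg (a / v')
        linarith
      have h10 : a ^ 2 / v' ≤ b := by
        have : 2 * a ^ 2 / v' = a ^ 2 / v' + a ^ 2 / v' := by ring
        linarith
      rwa [div_le_iff₀ hv0, mul_comm] at h10
    have hC1' : 0 ≤ v' * C1 := by positivity
    apply le_trans (Real.le_sqrt_of_sq_le hab)
    rw [← Real.sqrt_sq hC1', ← Real.sqrt_mul (sq_nonneg _)]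
    apply Real.sqrt_le_sqrt
    have h11 : v' * b ≤ v' * (C1 * nn G F u) := by
      apply mul_le_mul_of_nonneg_left hb
      linarith
    have h12 : 1 ≤ v' * C1 := by nlinarith
    have h13 : 0 ≤ v' * C1 * nn G F u := by positivity
    calc v' * b ≤ v' * C1 * nn G F u := by linarith
      _ ≤ (v' * C1) * (v' * C1 * nn G F u) := le_mul_of_one_le_left h13 h12
      _ = (v' * C1) ^ 2 * nn G F u := by ring

end

end Pool.Agent.VDI
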